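import Pool.Agent.H51.SM.ELM

/-!
# MP_70ba79_ag: a common zero of two coprime forms is a constant point
-/

set_option autoImplicit false

namespace Pool.Agent.H51.SM

open MvPolynomial Pool.Agent.H84.SM

theorem pf_CPC : T_CPC := by
  intro k L _ _ _ _ _ G P d e hGd hPe hG hP c hc hc'
  by_cases h0 : ∀ j, c j = 0
  · exact ⟨0, 0, fun i => by rw [h0 i, zero_mul]⟩
  push Not at h0
  obtain ⟨j, hj⟩ := h0
  have h1 : ∀ i, ∃ b : k, algebraMap k L b = c i / c j := by
    intro i
    obtain ⟨f, hf, h⟩ := ratio G P hGd hPe hG hP i j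
    have h2 := h L c hc hc' hj
    have h3 : IsIntegral k (c i / c j) := isAlgebraic_iff_isIntegral.1 ⟨f, hf, h2⟩
    exact minpoly.mem_range_of_degree_eq_one k _
      (IsAlgClosed.degree_eq_one_of_irreducible k (minpoly.irreducible h3))
  choose b hb using h1
  exact ⟨c j, b, fun i => by rw [hb i, mul_div_cancel₀ _ hj]⟩

end Pool.Agent.H51.SM
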