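import Pool.Agent.H51.SM.ELM

/-!
# MP_70ba79_ag: two coprime forms have finitely many common zeros
-/

set_option autoImplicit false

namespace Pool.Agent.H51.SM

open MvPolynomial Pool.Agent.H84.SM

theorem pf_FNS : T_FNS := by
  classical
  intro k _ _ _ G P d e hGd hPe hG hP
  choose f hf h using fun i j : Fin 3 => ratio G P hGd hPe hG hP i j
  refine ⟨(Finset.univ.biUnion fun j : Fin 3 =>
    Fintype.piFinset fun i => (f i j).roots.toFinset).filter fun a => a ≠ 0 ∧ eval a G = 0,
    fun a ha => (Finset.mem_filter.1 ha).2, ?_⟩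
  intro a ha haG haP
  obtain ⟨j, hj⟩ : ∃ j, a j ≠ 0 := by
    by_contra hcon
    push Not at hcon
    exact ha (funext hcon)
  have hG' : aeval a G = 0 := by rw [← haG]; rfl
  have hP' : aeval a P = 0 := by rw [← haP]; rfl
  refine ⟨fun i => a i / a j, ?_, a j, hj, ?_⟩
  · rw [Finset.mem_filter]
    refine ⟨Finset.mem_biUnion.2 ⟨j, Finset.mem_univ _, Fintype.mem_piFinset.2 fun i => ?_⟩,
      ?_, ?_⟩
    · rw [Multiset.mem_toFinset, Polynomial.mem_roots (hf i j), Polynomial.IsRoot.def,
        ← Polynomial.coe_aeval_eq_eval]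
      exact h i j k a hG' hP' hj
    · intro h0
      have h1 := congrFun h0 j
      rw [div_self hj] at h1
      exact one_ne_zero h1
    · have h1 := aeval_smul_hom hGd (a j)⁻¹ a
      rw [hG', mul_zero] at h1
      have h2 : (fun i => a i / a j) = fun i => (a j)⁻¹ * a i := by
        funext i
        rw [div_eq_inv_mul]
      rw [h2, ← h1]
      rfl
  · funext i
    rw [Pi.smul_apply, smul_eq_mul, mul_div_cancel₀ _ hj]

end Pool.Agent.H51.SM
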