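import Pool.Agent.H5.SM.TLF
import Pool.Agent.H63.HK.DS
import Pool.Agent.H66.CRZ.TL

/-!
# Upper bounds for the `L`-functions of `χ ∘ N`, all characters (row UBF of sm_modules)
-/

set_option autoImplicit false

open NumberField NumberField.InfinitePlace Complex Filter Topology

namespace Pool.Agent.H51.SM

open Pool.Agent.H20.SM Pool.Agent.H5.SM
open Pool.Agent.H30.BV (cv DS)

/-! ### Elementary bounds -/

theorem prod_le_card (S : Finset ℕ) : (∀ p ∈ S, 2 ≤ p) →
    ∏ p ∈ S, (1 - ((p : ℝ))⁻¹)⁻¹ ≤ (S.card : ℝ) + 1 := by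
  induction S using Finset.induction_on_max with
  | empty => intro _; simp
  | insert a S ha ih =>
    intro h
    have hna : a ∉ S := fun h' => lt_irrefl _ (ha a h')
    have hS : ∀ p ∈ S, 2 ≤ p := fun p hp => h p (Finset.mem_insert_of_mem hp)
    have ih' := ih hS
    have hcard : S.card + 2 ≤ a := by
      have h1 : S ⊆ Finset.Ico 2 a := fun p hp => Finset.mem_Ico.mpr ⟨hS p hp, ha p hp⟩
      have h2 := Finset.card_le_card h1
      rw [Nat.card_Ico] at h2
      have h3 := h a (Finset.mem_insert_self _ _)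
      omega
    rw [Finset.prod_insert hna, Finset.card_insert_of_notMem hna]
    have ha2 : (S.card : ℝ) + 2 ≤ a := by exact_mod_cast hcard
    have hS0 : (0 : ℝ) ≤ S.card := Nat.cast_nonneg _
    have ha0 : (0 : ℝ) < a := by linarith
    have h4 : (1 - ((a : ℝ))⁻¹)⁻¹ ≤ ((S.card : ℝ) + 2) / (S.card + 1) := by
      have h5 : (1 - ((a : ℝ))⁻¹) = ((a : ℝ) - 1) / a := by field_simp
      rw [h5, inv_div, div_le_div_iff₀ (by linarith) (by linarith)]
      nlinarith
    have h6 : 0 ≤ ((S.card : ℝ) + 2) / (S.card + 1) := by positivity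
    have h7 : 0 ≤ ∏ p ∈ S, (1 - ((p : ℝ))⁻¹)⁻¹ := by
      refine Finset.prod_nonneg fun p hp => inv_nonneg.mpr ?_
      have : (2 : ℝ) ≤ p := by exact_mod_cast hS p hp
      rw [sub_nonneg]
      exact inv_le_one_of_one_le₀ (by linarith)
    calc (1 - ((a : ℝ))⁻¹)⁻¹ * ∏ p ∈ S, (1 - ((p : ℝ))⁻¹)⁻¹ ≤
        ((S.card : ℝ) + 2) / (S.card + 1) * (S.card + 1) := mul_le_mul h4 ih' h7 h6
      _ = _ := by
        push_cast
        field_simp
        ring

theorem card_primeFactors_le (r : ℕ) (hr : 1 ≤ r) (y : ℝ) (hy : 3 ≤ y) :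
    (r.primeFactors.card : ℝ) + 1 ≤ 2 * Real.log (r * y) := by
  have hr0 : (0 : ℝ) < r := by exact_mod_cast hr
  have h1 : 2 ^ r.primeFactors.card ≤ r := by
    refine le_trans ?_ (Nat.le_of_dvd hr (Nat.prod_primeFactors_dvd r))
    rw [← Finset.prod_const]
    exact Finset.prod_le_prod' fun p hp => (Nat.prime_of_mem_primeFactors hp).two_le
  have h2 : (r.primeFactors.card : ℝ) * Real.log 2 ≤ Real.log r := by
    rw [← Real.log_pow]
    exact Real.log_le_log (by positivity) (by exact_mod_cast h1)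
  have h3 := Real.log_two_gt_d9
  have h4 : 1 ≤ Real.log y := by
    rw [Real.le_log_iff_exp_le (by linarith)]
    have := Real.exp_one_lt_d9
    linarith
  have h5 : (0 : ℝ) ≤ (r.primeFactors.card : ℝ) := Nat.cast_nonneg _
  rw [Real.log_mul hr0.ne' (by linarith)]
  nlinarith

theorem pow_hasSum (p : ℕ) (hp : p.Prime) (σ : ℝ) (hσ : 1 < σ) :
    HasSum (fun n : ℕ => open Classical in if ∃ a : ℕ, n = p ^ (a + 1) then
      Real.log p / (n : ℝ) ^ σ else 0)
      (Real.log p * (p : ℝ) ^ (-σ) / (1 - (p : ℝ) ^ (-σ))) := by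
  classical
  have hp1 : (1 : ℝ) < p := by exact_mod_cast hp.one_lt
  have hp0 : (0 : ℝ) < p := by linarith
  have hx0 : 0 < (p : ℝ) ^ (-σ) := Real.rpow_pos_of_pos hp0 _
  have hx1 : (p : ℝ) ^ (-σ) < 1 := Real.rpow_lt_one_of_one_lt_of_neg hp1 (by linarith)
  have hinj : Function.Injective (fun a : ℕ => p ^ (a + 1)) := fun a b hab => by
    have := Nat.pow_right_injective hp.two_le hab
    omega
  refine (hinj.hasSum_iff ?_).mp ?_
  · intro n hn
    rw [if_neg]
    rintro ⟨a, rfl⟩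
    exact hn ⟨a, rfl⟩
  · have h1 := (hasSum_geometric_of_lt_one hx0.le hx1).mul_left (Real.log p * (p : ℝ) ^ (-σ))
    rw [← div_eq_mul_inv] at h1
    refine h1.congr_fun ?_
    intro a
    simp only [Function.comp]
    rw [if_pos ⟨a, rfl⟩]
    have h2 : (((p ^ (a + 1) : ℕ) : ℝ) ^ σ) = (((p : ℝ) ^ (-σ)) ^ (a + 1))⁻¹ := by
      rw [Nat.cast_pow, ← Real.rpow_natCast, ← Real.rpow_natCast, ← Real.rpow_mul hp0.le,
        ← Real.rpow_mul hp0.le, ← Real.rpow_neg hp0.le]
      congr 1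
      ring
    rw [h2, div_inv_eq_mul, pow_succ]
    ring

/-! ### The comparison of two characters -/

/-- the logarithm of the product -/
noncomputable def Ph (S : Finset ℕ) (n0 : ℝ) (σ : ℝ) : ℝ :=
  -(n0 * ∑ p ∈ S, Real.log (1 - (p : ℝ) ^ (-σ)))

/-- minus its derivative -/
noncomputable def Rf (S : Finset ℕ) (n0 : ℝ) (σ : ℝ) : ℝ :=
  n0 * ∑ p ∈ S, Real.log p * (p : ℝ) ^ (-σ) / (1 - (p : ℝ) ^ (-σ))

theorem Ph_deriv (S : Finset ℕ) (hS : ∀ p ∈ S, 2 ≤ p) (n0 : ℝ) (σ : ℝ) (hσ : 1 < σ) :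
    HasDerivAt (Ph S n0) (-(Rf S n0 σ)) σ := by
  unfold Ph Rf
  refine HasDerivAt.neg (HasDerivAt.const_mul n0 ?_)
  refine HasDerivAt.fun_sum fun p hp => ?_
  have hp1 : (1 : ℝ) < p := by
    have := hS p hp
    exact_mod_cast this
  have hp0 : (0 : ℝ) < p := by linarith
  have hx1 : (p : ℝ) ^ (-σ) < 1 := Real.rpow_lt_one_of_one_lt_of_neg hp1 (by linarith)
  have h1 : HasDerivAt (fun y : ℝ => (p : ℝ) ^ (-y)) ((p : ℝ) ^ (-σ) * Real.log p * (-1)) σ :=
    HasDerivAt.comp σ (Real.hasStrictDerivAt_const_rpow hp0 (-σ)).hasDerivAt (hasDerivAt_neg σ)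
  have h2 := (h1.const_sub 1).log (by linarith)
  refine h2.congr_deriv ?_
  ring

theorem Ph_lim (S : Finset ℕ) (hS : ∀ p ∈ S, 2 ≤ p) (n0 : ℝ) :
    Tendsto (Ph S n0) atTop (𝓝 0) := by
  have h1 : ∀ p ∈ S, Tendsto (fun σ : ℝ => Real.log (1 - (p : ℝ) ^ (-σ))) atTop (𝓝 0) := by
    intro p hp
    have hp2 : (2 : ℝ) ≤ p := by exact_mod_cast hS p hp
    have hp0 : (0 : ℝ) < p := by linarith
    have h2 : Tendsto (fun σ : ℝ => ((p : ℝ)⁻¹) ^ σ) atTop (𝓝 0) := by
      refine tendsto_rpow_atTop_of_base_lt_one _ ?_ ?_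
      · have : 0 < (p : ℝ)⁻¹ := by positivity
        linarith
      · exact inv_lt_one_of_one_lt₀ (by linarith)
    have h3 : (fun σ : ℝ => ((p : ℝ)⁻¹) ^ σ) = fun σ : ℝ => (p : ℝ) ^ (-σ) := by
      funext σ
      rw [Real.inv_rpow hp0.le, Real.rpow_neg hp0.le]
    rw [h3] at h2
    have h4 : Tendsto (fun σ : ℝ => 1 - (p : ℝ) ^ (-σ)) atTop (𝓝 (1 - 0)) :=
      tendsto_const_nhds.sub h2
    rw [sub_zero] at h4
    have h5 := (Real.continuousAt_log one_ne_zero).tendsto.comp h4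
    rw [Real.log_one] at h5
    exact h5
  have h2 := (tendsto_finsetSum S h1).const_mul n0
  rw [Finset.sum_const_zero, mul_zero] at h2
  have h3 := h2.neg
  rw [neg_zero] at h3
  exact h3

theorem Ph_le (S : Finset ℕ) (hS : ∀ p ∈ S, 2 ≤ p) (n0 : ℕ) (σ : ℝ) (hσ : 1 < σ) :
    Real.exp (Ph S n0 σ) ≤ ((S.card : ℝ) + 1) ^ n0 := by
  have h1 : Real.exp (Ph S n0 σ) = (∏ p ∈ S, (1 - (p : ℝ) ^ (-σ))⁻¹) ^ n0 := by
    unfold Ph
    have h2 : -((n0 : ℝ) * ∑ p ∈ S, Real.log (1 - (p : ℝ) ^ (-σ))) =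
        n0 * ∑ p ∈ S, Real.log ((1 - (p : ℝ) ^ (-σ))⁻¹) := by
      rw [← mul_neg, ← Finset.sum_neg_distrib]
      refine congrArg _ (Finset.sum_congr rfl fun p _ => ?_)
      rw [Real.log_inv]
    rw [h2, Real.exp_nat_mul, Real.exp_sum]
    refine congrArg (fun x => x ^ n0) (Finset.prod_congr rfl fun p hp => ?_)
    have hp1 : (1 : ℝ) < p := by
      have := hS p hp
      exact_mod_cast this
    have hx1 : (p : ℝ) ^ (-σ) < 1 := Real.rpow_lt_one_of_one_lt_of_neg hp1 (by linarith)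
    rw [Real.exp_log (inv_pos.mpr (by linarith))]
  rw [h1]
  have h3 : ∏ p ∈ S, (1 - (p : ℝ) ^ (-σ))⁻¹ ≤ ∏ p ∈ S, (1 - ((p : ℝ))⁻¹)⁻¹ := by
    refine Finset.prod_le_prod (fun p hp => ?_) fun p hp => ?_
    · have hp1 : (1 : ℝ) < p := by
        have := hS p hp
        exact_mod_cast this
      have hx1 : (p : ℝ) ^ (-σ) < 1 := Real.rpow_lt_one_of_one_lt_of_neg hp1 (by linarith)
      exact inv_nonneg.mpr (by linarith)
    · have hp1 : (1 : ℝ) < p := by
        have := hS p hp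
        exact_mod_cast this
      have h4 : (p : ℝ) ^ (-σ) ≤ ((p : ℝ))⁻¹ := by
        rw [← Real.rpow_neg_one]
        exact Real.rpow_le_rpow_of_exponent_le hp1.le (by linarith)
      have h5 : ((p : ℝ))⁻¹ < 1 := inv_lt_one_of_one_lt₀ hp1
      exact inv_anti₀ (by linarith) (by linarith)
  refine pow_le_pow_left₀ (Finset.prod_nonneg fun p hp => ?_) (h3.trans (prod_le_card S hS)) n0
  have hp1 : (1 : ℝ) < p := by
    have := hS p hp
    exact_mod_cast this
  have hx1 : (p : ℝ) ^ (-σ) < 1 := Real.rpow_lt_one_of_one_lt_of_neg hp1 (by linarith)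
  exact inv_nonneg.mpr (by linarith)

theorem cmp (hCFF : T_CFF) (F : Type) [Field F] [NumberField F] (r r' : ℕ)
    (χ : DirichletCharacter ℂ r) (χ' : DirichletCharacter ℂ r') (hr : 1 ≤ r) (hr' : 1 ≤ r')
    (h : ∀ n : ℕ, Nat.Coprime n r → cv χ' n = cv χ n) (s : ℂ) (hs : 1 < s.re) :
    ‖DS (ac F χ) 0 s‖ ≤ ‖DS (ac F χ') 0 s‖ *
      ((r.primeFactors.card : ℝ) + 1) ^ Module.finrank ℚ F := by
  classical
  obtain ⟨hg, -, hx⟩ := hCFF F
  set n0 := Module.finrank ℚ F with hn0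
  set S := r.primeFactors with hSdef
  have hS : ∀ p ∈ S, 2 ≤ p := fun p hp => (Nat.prime_of_mem_primeFactors hp).two_le
  -- facts for both characters
  have hfacts : ∀ (m : ℕ) (ψ : DirichletCharacter ℂ m), 1 ≤ m →
      (∀ x : ℝ, 1 < x → HasDerivAt (fun y : ℝ => LSeries (ac F ψ) ((y : ℂ) + s.im * I))
        (-(LSeries (ac F ψ) ((x : ℂ) + s.im * I) * LSeries
          (fun n => (ArithmeticFunction.vonMangoldt n : ℂ) * gc F ψ n)
            ((x : ℂ) + s.im * I))) x) ∧
      Tendsto (fun y : ℝ => LSeries (ac F ψ) ((y : ℂ) + s.im * I)) atTop (𝓝 1) ∧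
      (∀ x : ℝ, 1 < x → LSeries (ac F ψ) ((x : ℂ) + s.im * I) ≠ 0) ∧
      (∀ x : ℝ, 1 < x → LSeriesSummable
        (fun n => (ArithmeticFunction.vonMangoldt n : ℂ) * gc F ψ n) ((x : ℂ) + s.im * I)) := by
    intro m ψ hm
    have hac : ∀ w : ℂ, 1 < w.re → LSeriesSummable (ac F ψ) w := by
      intro w hw
      have h1 := ((hx m ψ w hm hw).1 0).1
      have h2 : (fun n => ac F ψ n * ((Real.log n ^ 0 : ℝ) : ℂ)) = ac F ψ := by
        funext n
        simp
      rw [h2] at h1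
      exact h1
    refine ⟨fun x hx1 => ?_, ?_, fun x hx1 => ?_, fun x hx1 => ?_⟩
    · have h1 := tlf_deriv _ hac s.im x hx1
      have h2 := (hx m ψ ((x : ℂ) + s.im * I) hm (by simpa using hx1)).2.2
      rw [tlf_DS0, tlf_DS0] at h2
      rw [h2] at h1
      exact h1
    · have h1 := tlf_tendsto _ hac s.im
      have h2 : ac F ψ 1 = 1 := by
        unfold ac cv
        rw [tlf_one, Nat.cast_one, map_one, Complex.ofReal_one, mul_one]
      rw [h2] at h1
      exact h1
    · have h2 := (hx m ψ ((x : ℂ) + s.im * I) hm (by simpa using hx1)).2.1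
      rwa [tlf_DS0] at h2
    · have h1 := ((hx m ψ ((x : ℂ) + s.im * I) hm (by simpa using hx1)).1 0).2
      have h2 : (fun n => (ArithmeticFunction.vonMangoldt n : ℂ) * gc F ψ n *
          ((Real.log n ^ 0 : ℝ) : ℂ)) =
          fun n => (ArithmeticFunction.vonMangoldt n : ℂ) * gc F ψ n := by
        funext n
        simp
      rw [h2] at h1
      exact h1
  obtain ⟨hd1, hl1, hz1, hs1⟩ := hfacts r χ hr
  obtain ⟨hd2, hl2, -, hs2⟩ := hfacts r' χ' hr'
  set L1 : ℝ → ℂ := fun y => LSeries (ac F χ) ((y : ℂ) + s.im * I) with hL1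
  set L2 : ℝ → ℂ := fun y => LSeries (ac F χ') ((y : ℂ) + s.im * I) with hL2
  set P1 : ℝ → ℂ := fun y => LSeries
    (fun n => (ArithmeticFunction.vonMangoldt n : ℂ) * gc F χ n) ((y : ℂ) + s.im * I) with hP1
  set P2 : ℝ → ℂ := fun y => LSeries
    (fun n => (ArithmeticFunction.vonMangoldt n : ℂ) * gc F χ' n) ((y : ℂ) + s.im * I) with hP2
  have hu : ∀ x : ℝ, 1 < x → HasDerivAt (fun y => L2 y / L1 y)
      (-(L2 x / L1 x * (P2 x - P1 x))) x := by
    intro x hx1
    have h1 := (hd2 x hx1).div (hd1 x hx1) (hz1 x hx1)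
    refine h1.congr_deriv ?_
    have hne : L1 x ≠ 0 := hz1 x hx1
    have e1 : LSeries (ac F χ) ((x : ℂ) + s.im * I) = L1 x := rfl
    have e2 : LSeries (ac F χ') ((x : ℂ) + s.im * I) = L2 x := rfl
    have e3 : LSeries (fun n => (ArithmeticFunction.vonMangoldt n : ℂ) * gc F χ n)
      ((x : ℂ) + s.im * I) = P1 x := rfl
    have e4 : LSeries (fun n => (ArithmeticFunction.vonMangoldt n : ℂ) * gc F χ' n)
      ((x : ℂ) + s.im * I) = P2 x := rfl
    rw [e1, e2, e3, e4]
    field_simp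
    ring
  have hv : ∀ x : ℝ, 1 < x → HasDerivAt (fun y : ℝ => ((Real.exp (Ph S n0 y) : ℝ) : ℂ))
      (-(((Real.exp (Ph S n0 x) : ℝ) : ℂ) * ((Rf S n0 x : ℝ) : ℂ))) x := by
    intro x hx1
    have h1 := (Ph_deriv S hS n0 x hx1).exp.ofReal_comp
    refine h1.congr_deriv ?_
    push_cast
    ring
  -- the bound of the difference of the logarithmic derivatives
  have hPR : ∀ x : ℝ, 1 < x → ‖P2 x - P1 x‖ ≤ (((Rf S n0 x : ℝ) : ℂ)).re := by
    intro x hx1
    rw [Complex.ofReal_re]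
    have h1 : P2 x - P1 x = LSeries (fun n => (ArithmeticFunction.vonMangoldt n : ℂ) *
        gc F χ' n - (ArithmeticFunction.vonMangoldt n : ℂ) * gc F χ n)
          ((x : ℂ) + s.im * I) := by
      exact (LSeries_sub (hs2 x hx1) (hs1 x hx1)).symm
    have h2 : HasSum (fun n : ℕ => (n0 : ℝ) * ∑ p ∈ S, (if ∃ a : ℕ, n = p ^ (a + 1) then
        Real.log p / (n : ℝ) ^ x else 0)) (Rf S n0 x) := by
      refine HasSum.mul_left _ (hasSum_sum fun p hp => ?_)
      exact pow_hasSum p (Nat.prime_of_mem_primeFactors hp) x hx1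
    rw [h1]
    refine tsum_of_norm_bounded h2 fun n => ?_
    rw [LSeries.norm_term_eq]
    have hre : ((x : ℂ) + s.im * I).re = x := by simp
    have hnn : ∀ p ∈ S, 0 ≤ (if ∃ a : ℕ, n = p ^ (a + 1) then
        Real.log p / (n : ℝ) ^ x else 0) := by
      intro p hp
      split_ifs
      · have : 0 ≤ Real.log p := Real.log_nonneg (by
          have := hS p hp
          exact_mod_cast (by omega : 1 ≤ p))
        positivity
      · exact le_rfl
    by_cases hn : n = 0
    · rw [if_pos hn]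
      exact mul_nonneg (Nat.cast_nonneg _) (Finset.sum_nonneg hnn)
    rw [if_neg hn, hre]
    have hnx : 0 < (n : ℝ) ^ x :=
      Real.rpow_pos_of_pos (by exact_mod_cast Nat.pos_of_ne_zero hn) _
    by_cases hc : Nat.Coprime n r
    · have h3 : gc F χ' n = gc F χ n := by
        unfold gc
        rw [h n hc]
      rw [h3, sub_self, norm_zero, zero_div]
      exact mul_nonneg (Nat.cast_nonneg _) (Finset.sum_nonneg hnn)
    have h4 : gc F χ n = 0 := by
      unfold gc cv
      rw [MulChar.map_nonunit _ (fun hu => hc ((ZMod.isUnit_iff_coprime n r).mp hu)), mul_zero]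
    rw [h4, mul_zero, sub_zero]
    by_cases hΛ : ArithmeticFunction.vonMangoldt n = 0
    · rw [hΛ, Complex.ofReal_zero, zero_mul, norm_zero, zero_div]
      exact mul_nonneg (Nat.cast_nonneg _) (Finset.sum_nonneg hnn)
    have hpp : IsPrimePow n := ArithmeticFunction.vonMangoldt_ne_zero_iff.mp hΛ
    obtain ⟨p, k, hp, hk, hpk⟩ := (isPrimePow_nat_iff n).mp hpp
    have hpr : p ∣ r := by
      by_contra hcon
      have : Nat.Coprime p r := (Nat.Prime.coprime_iff_not_dvd hp).mpr hcon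
      exact hc (hpk ▸ this.pow_left k)
    have hpS : p ∈ S := Nat.mem_primeFactors.mpr ⟨hp, hpr, by omega⟩
    have h5 : ArithmeticFunction.vonMangoldt n = Real.log p := by
      rw [← hpk, ArithmeticFunction.vonMangoldt_apply_pow (by omega),
        ArithmeticFunction.vonMangoldt_apply_prime hp]
    have h6 : ‖(ArithmeticFunction.vonMangoldt n : ℂ) * gc F χ' n‖ ≤ Real.log p * n0 := by
      unfold gc cv
      rw [norm_mul, norm_mul, Complex.norm_real, Complex.norm_real, Real.norm_eq_abs,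
        Real.norm_eq_abs, abs_of_nonneg ArithmeticFunction.vonMangoldt_nonneg,
        abs_of_nonneg (hg n).1, h5]
      refine mul_le_mul_of_nonneg_left ?_ (Real.log_nonneg (by exact_mod_cast hp.one_le))
      calc gF F n * ‖χ' (n : ZMod r')‖ ≤ gF F n * 1 :=
            mul_le_mul_of_nonneg_left (χ'.norm_le_one _) (hg n).1
        _ ≤ n0 := by rw [mul_one]; exact (hg n).2
    calc ‖(ArithmeticFunction.vonMangoldt n : ℂ) * gc F χ' n‖ / (n : ℝ) ^ x ≤
          Real.log p * n0 / (n : ℝ) ^ x := div_le_div_of_nonneg_right h6 hnx.le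
      _ = n0 * (if ∃ a : ℕ, n = p ^ (a + 1) then Real.log p / (n : ℝ) ^ x else 0) := by
          rw [if_pos ⟨k - 1, by rw [← hpk, Nat.sub_add_cancel hk]⟩]
          ring
      _ ≤ _ := mul_le_mul_of_nonneg_left (Finset.single_le_sum hnn hpS) (Nat.cast_nonneg _)
  have hlu : Tendsto (fun y => L2 y / L1 y) atTop (𝓝 1) := by
    have := hl2.div hl1 one_ne_zero
    rwa [div_one] at this
  have hlv : Tendsto (fun y : ℝ => ((Real.exp (Ph S n0 y) : ℝ) : ℂ)) atTop (𝓝 1) := by
    have h1 := (Real.continuous_exp.tendsto 0).comp (Ph_lim S hS n0)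
    rw [Real.exp_zero] at h1
    have h2 := (Complex.continuous_ofReal.tendsto 1).comp h1
    rw [Complex.ofReal_one] at h2
    exact h2
  have hmain := tlf_anti _ _ _ _ hu hv hPR hlu hlv s.re hs
  have hs0 : ((s.re : ℂ) + s.im * I) = s := Complex.re_add_im s
  have e1 : L1 s.re = DS (ac F χ) 0 s := by rw [tlf_DS0, hL1]; simp only [hs0]
  have e2 : L2 s.re = DS (ac F χ') 0 s := by rw [tlf_DS0, hL2]; simp only [hs0]
  have hne := hz1 s.re hs
  rw [e1, e2, norm_div, Complex.norm_real, Real.norm_eq_abs, abs_of_pos (Real.exp_pos _)] at hmain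
  have hne' : DS (ac F χ) 0 s ≠ 0 := by rw [← e1]; exact hne
  set A := ‖DS (ac F χ) 0 s‖ with hA
  set B := ‖DS (ac F χ') 0 s‖ with hB
  have hA0 : 0 < A := norm_pos_iff.mpr hne'
  have hB0 : 0 ≤ B := norm_nonneg _
  have hE0 := Real.exp_pos (Ph S n0 s.re)
  have h7 : 1 ≤ B / A * Real.exp (Ph S n0 s.re) := by
    have h8 : 1 ≤ (B / A * Real.exp (Ph S n0 s.re)) ^ 2 := by rw [mul_pow]; exact hmain
    have h9 : 0 ≤ B / A * Real.exp (Ph S n0 s.re) := by positivity
    nlinarith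
  have h10 : A ≤ B * Real.exp (Ph S n0 s.re) := by
    rw [div_mul_eq_mul_div, le_div_iff₀ hA0, one_mul] at h7
    exact h7
  exact h10.trans (mul_le_mul_of_nonneg_left (Ph_le S hS n0 s.re hs) hB0)

/-! ### The zeta function of `F` -/

theorem zeta_E (hZK : Pool.Agent.H37.CV.T_ZK) (F : Type) [Field F] [NumberField F] :
    ∃ E : ℂ → ℂ, Differentiable ℂ E ∧
      (∀ s : ℂ, 1 < s.re → E s = (s - 1) * DS (fun n => (aF F n : ℂ)) 0 s) ∧
      ∀ b : ℝ, ∃ C A : ℝ, ∀ s : ℂ, |s.re| ≤ b → ‖E s‖ ≤ C * (1 + |s.im|) ^ A := by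
  obtain ⟨E, hE, hE1, -, hE2⟩ := hZK F
  refine ⟨E, hE, fun s hs => ?_, hE2⟩
  have hz : dedekindZeta F s = LSeries (fun n => (aF F n : ℂ)) s := by
    unfold dedekindZeta aF
    refine tsum_congr fun n => ?_
    by_cases hn : n = 0
    · simp [hn]
    · rw [LSeries.term_of_ne_zero hn, LSeries.term_of_ne_zero hn]
      have h1 : (Nat.card {I : Ideal (𝓞 F) // Ideal.absNorm I = n} : ℂ) =
          ((({I : Ideal (𝓞 F) | Ideal.absNorm I = n}.ncard : ℕ) : ℝ) : ℂ) := by
        rw [← Nat.card_coe_set_eq]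
        push_cast
        rfl
      rw [h1]
  have h2 := (Pool.Agent.H63.HK.ds F s hs).2
  rw [(hE1 s hs).2, tlf_DS0, ← hz, h2]
  refine congrArg _ (tsum_congr fun I => ?_)
  unfold Pool.Agent.H37.CV.nm
  rw [Complex.ofReal_natCast]

theorem zeta_bd (hZK : Pool.Agent.H37.CV.T_ZK) (hTLF : T_TLF) (F : Type) [Field F]
    [NumberField F] [IsTotallyComplex F] : ∃ C : ℝ, 0 < C ∧ ∀ s : ℂ, 1 < s.re → s.re ≤ 3 →
      ‖DS (fun n => (aF F n : ℂ)) 0 s‖ ≤ C * (1 + 1 / ‖s - 1‖) * Real.log (|s.im| + 3) := by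
  obtain ⟨E, hE, hE1, hE2⟩ := zeta_E hZK F
  obtain ⟨c, hc, hTL⟩ := hTLF F
  obtain ⟨C₀, A₀, hgr⟩ := hE2 3
  have hz : ∀ s : ℂ, 1 < s.re → s.re ≤ 3 →
      ‖DS (fun n => (aF F n : ℂ)) 0 s‖ ≤ 1 / (c * (s.re - 1)) := fun s h1 h3 =>
    (hTL 1 1 s le_rfl h1 h3).2
  set A := |A₀| with hA
  set C := |C₀| with hC
  have hA0 : 0 ≤ A := abs_nonneg _
  have hC0 : 0 ≤ C := abs_nonneg _
  have hgr' : ∀ s : ℂ, |s.re| ≤ 3 → ‖E s‖ ≤ C * (1 + |s.im|) ^ A := by
    intro s hs
    refine (hgr s hs).trans ?_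
    have h1 : (1 : ℝ) ≤ 1 + |s.im| := by linarith [abs_nonneg s.im]
    have h2 : (1 + |s.im|) ^ A₀ ≤ (1 + |s.im|) ^ A :=
      Real.rpow_le_rpow_of_exponent_le h1 (le_abs_self _)
    have h3 : 0 ≤ (1 + |s.im|) ^ A₀ := by positivity
    exact mul_le_mul (le_abs_self _) h2 h3 hC0
  obtain ⟨K, hK1, hK⟩ := Pool.Agent.H66.CRZ.pf_TL (2 * (A + 1)) 3 (by linarith) (by norm_num)
  have hK0 : 0 ≤ K := by linarith
  set D := 1 / c + C * 2 ^ A + 4 * (Real.exp A * (Real.sqrt K * (C + 1 / c))) with hD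
  have hc0 : 0 ≤ 1 / c := by positivity
  have h2A : (0 : ℝ) ≤ 2 ^ A := by positivity
  have hDp : 0 < D := by
    have h1 : 0 < 1 / c := by positivity
    have h2 : 0 ≤ C * 2 ^ A := by positivity
    have h3 : 0 ≤ 4 * (Real.exp A * (Real.sqrt K * (C + 1 / c))) := by positivity
    rw [hD]; linarith
  refine ⟨D, hDp, fun s hs hs3 => ?_⟩
  set t := s.im with ht
  set l := Real.log (|t| + 3) with hl
  have ht0 : 0 ≤ |t| := abs_nonneg _
  have hl1 : 1 ≤ l := by
    rw [hl, Real.le_log_iff_exp_le (by linarith)]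
    have := Real.exp_one_lt_d9
    linarith
  have hl0 : 0 < l := by linarith
  have hs1 : 0 < ‖s - 1‖ := by
    rw [norm_pos_iff, sub_ne_zero]
    rintro rfl
    simp at hs
  have hinv : 0 < 1 / ‖s - 1‖ := by positivity
  -- it suffices to have one of the bounds
  have hfin : ∀ X : ℝ, 0 ≤ X → X ≤ D → ‖DS (fun n => (aF F n : ℂ)) 0 s‖ ≤
      X * (1 + 1 / ‖s - 1‖) * l → ‖DS (fun n => (aF F n : ℂ)) 0 s‖ ≤
      D * (1 + 1 / ‖s - 1‖) * l := by
    intro X _ hXD h
    refine h.trans (mul_le_mul_of_nonneg_right (mul_le_mul_of_nonneg_right hXD (by linarith))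
      hl0.le)
  rcases le_or_gt (1 + 1 / l) s.re with h1 | h1
  · -- far to the right
    refine hfin (1 / c) hc0 (by
      rw [hD]
      have h2 : 0 ≤ C * 2 ^ A := by positivity
      have h3 : 0 ≤ 4 * (Real.exp A * (Real.sqrt K * (C + 1 / c))) := by positivity
      linarith) ?_
    have h2 : 1 / (c * (s.re - 1)) ≤ 1 / c * l := by
      have h3 : 1 / l ≤ s.re - 1 := by linarith
      have h4 : 0 < s.re - 1 := by linarith
      rw [div_mul_eq_mul_div, one_mul, div_le_div_iff₀ (by positivity) hc, one_mul]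
      rw [div_le_iff₀ hl0] at h3
      nlinarith
    refine (hz s hs hs3).trans (h2.trans ?_)
    refine mul_le_mul_of_nonneg_right ?_ hl0.le
    exact le_mul_of_one_le_right hc0 (by linarith)
  have hDSE : ‖DS (fun n => (aF F n : ℂ)) 0 s‖ = ‖E s‖ / ‖s - 1‖ := by
    rw [hE1 s hs, norm_mul, mul_comm, mul_div_assoc, div_self hs1.ne', mul_one]
  rcases le_total (|t|) 1 with h2 | h2
  · -- near the real axis
    refine hfin (C * 2 ^ A) (by positivity) (by
      rw [hD]
      have h3 : 0 ≤ 4 * (Real.exp A * (Real.sqrt K * (C + 1 / c))) := by positivity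
      linarith) ?_
    have h3 : ‖E s‖ ≤ C * 2 ^ A := by
      refine (hgr' s (abs_le.mpr ⟨by linarith, hs3⟩)).trans ?_
      refine mul_le_mul_of_nonneg_left ?_ hC0
      exact Real.rpow_le_rpow (by positivity) (by rw [← ht]; linarith) hA0
    rw [hDSE, div_eq_mul_one_div]
    have hCA : 0 ≤ C * 2 ^ A := by positivity
    calc ‖E s‖ * (1 / ‖s - 1‖) ≤ C * 2 ^ A * (1 + 1 / ‖s - 1‖) :=
          mul_le_mul h3 (by linarith) hinv.le hCA
      _ ≤ _ := le_mul_of_one_le_right (by positivity) hl1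
  · -- three lines
    refine hfin (4 * (Real.exp A * (Real.sqrt K * (C + 1 / c)))) (by positivity) (by
      rw [hD]
      have h3 : 0 ≤ C * 2 ^ A := by positivity
      linarith) ?_
    set b := 1 + 1 / l with hb
    have hb1 : 1 / l ≤ 1 := by rw [div_le_one hl0]; exact hl1
    have hb0 : 0 < 1 / l := by positivity
    set lam := A * l with hlam
    have hlam0 : 0 ≤ lam := by positivity
    set f : Unit → ℂ → ℂ := fun _ w => E w * cexp ((lam : ℂ) * (w - b)) with hf
    have hnf : ∀ w : ℂ, ‖f () w‖ = ‖E w‖ * Real.exp (lam * (w.re - b)) := by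
      intro w
      simp only [hf]
      rw [norm_mul, Complex.norm_exp]
      congr 2
      rw [Complex.re_ofReal_mul, Complex.sub_re, Complex.ofReal_re]
    have hu : ∀ u : ℝ, 1 + |u| ≤ (|t| + 3) * (1 + |u - t|) := by
      intro u
      have h3 : |u| ≤ |t| + |u - t| := by
        have := abs_add_le t (u - t)
        rwa [add_sub_cancel] at this
      have h4 : 0 ≤ |u - t| := abs_nonneg _
      nlinarith
    set M := (C + l * (|t| + 3) / c) ^ 2 with hM
    have hX0 : 0 ≤ l * (|t| + 3) / c := by positivity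
    have hel : Real.exp l = |t| + 3 := by rw [hl, Real.exp_log (by linarith)]
    -- from a bound of the norm to a bound of the square
    have hsq : ∀ (w : ℂ) (u : ℝ), ‖f () w‖ ≤ (C + l * (|t| + 3) / c) * (1 + |u - t|) ^ (A + 1) →
        ∑ i, ‖f i w‖ ^ 2 ≤ M * (1 + |u - t|) ^ (2 * (A + 1)) := by
      intro w u h
      rw [Finset.univ_unique, Finset.sum_singleton]
      have h3 := pow_le_pow_left₀ (norm_nonneg _) h 2
      refine h3.trans (le_of_eq ?_)
      rw [mul_pow, ← Real.rpow_natCast ((1 + |u - t|) ^ (A + 1)) 2, ← Real.rpow_mul (by positivity)]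
      congr 2
      push_cast
      ring
    have hleft : ∀ u : ℝ, ∑ i, ‖f i ((-1 : ℝ) + u * I)‖ ^ 2 ≤
        M * (1 + |u - t|) ^ (2 * (A + 1)) := by
      intro u
      refine hsq _ u ?_
      rw [hnf]
      have hre : (((-1 : ℝ) : ℂ) + u * I).re = -1 := by simp
      have him : (((-1 : ℝ) : ℂ) + u * I).im = u := by simp
      have h3 := hgr' (((-1 : ℝ) : ℂ) + u * I) (by rw [hre]; norm_num)
      rw [him] at h3
      rw [hre]
      have h4 : (1 + |u|) ^ A ≤ Real.exp lam * (1 + |u - t|) ^ A := by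
        have h5 : (1 + |u|) ^ A ≤ ((|t| + 3) * (1 + |u - t|)) ^ A :=
          Real.rpow_le_rpow (by positivity) (hu u) hA0
        rw [Real.mul_rpow (by positivity) (by positivity)] at h5
        have h6 : (|t| + 3) ^ A = Real.exp lam := by
          rw [← hel, ← Real.exp_mul, hlam, mul_comm]
        rwa [h6] at h5
      have h7 : Real.exp (lam * (-1 - b)) ≤ Real.exp (-lam) := by
        refine Real.exp_le_exp.mpr ?_
        nlinarith
      have h8 : Real.exp lam * Real.exp (-lam) = 1 := by rw [← Real.exp_add]; simp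
      have h9 : (1 + |u - t|) ^ A ≤ (1 + |u - t|) ^ (A + 1) :=
        Real.rpow_le_rpow_of_exponent_le (by linarith [abs_nonneg (u - t)]) (by linarith)
      have h10 : 0 ≤ (1 + |u - t|) ^ A := by positivity
      calc ‖E (((-1 : ℝ) : ℂ) + u * I)‖ * Real.exp (lam * (-1 - b)) ≤
            (C * (Real.exp lam * (1 + |u - t|) ^ A)) * Real.exp (-lam) :=
            mul_le_mul (h3.trans (mul_le_mul_of_nonneg_left h4 hC0)) h7 (Real.exp_pos _).le
              (by positivity)
        _ = C * (1 + |u - t|) ^ A * (Real.exp lam * Real.exp (-lam)) := by ring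
        _ = C * (1 + |u - t|) ^ A := by rw [h8, mul_one]
        _ ≤ (C + l * (|t| + 3) / c) * (1 + |u - t|) ^ (A + 1) :=
            mul_le_mul (by linarith) h9 h10 (by linarith)
    have hright : ∀ u : ℝ, ∑ i, ‖f i ((b : ℝ) + u * I)‖ ^ 2 ≤
        M * (1 + |u - t|) ^ (2 * (A + 1)) := by
      intro u
      refine hsq _ u ?_
      rw [hnf]
      have hre : (((b : ℝ) : ℂ) + u * I).re = b := by simp
      have him : (((b : ℝ) : ℂ) + u * I).im = u := by simp
      have hb' : 1 < (((b : ℝ) : ℂ) + u * I).re := by rw [hre, hb]; linarith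
      have h3 := hz (((b : ℝ) : ℂ) + u * I) hb' (by rw [hre, hb]; linarith)
      rw [hre] at h3
      rw [hre, sub_self, mul_zero, Real.exp_zero, mul_one, hE1 _ hb', norm_mul]
      have h4 : ‖((b : ℝ) : ℂ) + u * I - 1‖ ≤ 1 + |u| := by
        have h5 : ((b : ℝ) : ℂ) + u * I - 1 = ((1 / l : ℝ) : ℂ) + u * I := by
          rw [hb]; push_cast; ring
        rw [h5]
        refine (norm_add_le _ _).trans ?_
        rw [Complex.norm_real, norm_mul, Complex.norm_real, Complex.norm_I, mul_one,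
          Real.norm_eq_abs, Real.norm_eq_abs, abs_of_pos hb0]
        linarith
      have h5 : 1 / (c * (b - 1)) = l / c := by
        rw [hb]; field_simp; ring
      rw [h5] at h3
      have h6 : (1 + |u - t|) ≤ (1 + |u - t|) ^ (A + 1) := by
        have h7 : (1 : ℝ) ≤ 1 + |u - t| := by linarith [abs_nonneg (u - t)]
        calc (1 + |u - t|) = (1 + |u - t|) ^ (1 : ℝ) := (Real.rpow_one _).symm
          _ ≤ _ := Real.rpow_le_rpow_of_exponent_le h7 (by linarith)
      have h7 : 0 ≤ 1 + |u - t| := by positivity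
      calc ‖((b : ℝ) : ℂ) + u * I - 1‖ * ‖DS (fun n => (aF F n : ℂ)) 0 (((b : ℝ) : ℂ) + u * I)‖ ≤
            ((|t| + 3) * (1 + |u - t|)) * (l / c) :=
            mul_le_mul (h4.trans (hu u)) h3 (norm_nonneg _) (by positivity)
        _ = (l * (|t| + 3) / c) * (1 + |u - t|) := by ring
        _ ≤ (C + l * (|t| + 3) / c) * (1 + |u - t|) ^ (A + 1) :=
            mul_le_mul (by linarith) h6 h7 (by linarith)
    have hdiff : ∀ i : Unit, ∀ w : ℂ, (-1 : ℝ) ≤ w.re → w.re ≤ b → DifferentiableAt ℂ (f i) w := by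
      intro i w _ _
      have e1 : DifferentiableAt ℂ (fun w : ℂ => cexp ((lam : ℂ) * (w - b))) w :=
        ((differentiableAt_id.sub_const _).const_mul _).cexp
      exact (hE w).mul e1
    have hgrow : ∀ i : Unit, ∃ C' B' : ℝ, ∀ w : ℂ, (-1 : ℝ) ≤ w.re → w.re ≤ b →
        ‖f i w‖ ≤ C' * (1 + |w.im|) ^ B' := by
      intro i
      refine ⟨C, A, fun w h3 h4 => ?_⟩
      have h5 : ‖f i w‖ = ‖E w‖ * Real.exp (lam * (w.re - b)) := hnf w
      rw [h5]
      have h6 : Real.exp (lam * (w.re - b)) ≤ 1 := Real.exp_le_one_iff.mpr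
        (mul_nonpos_of_nonneg_of_nonpos hlam0 (by linarith))
      have h7 := hgr' w (abs_le.mpr ⟨by linarith, by linarith⟩)
      exact (mul_le_of_le_one_right (norm_nonneg _) h6).trans h7
    have hmain := hK Unit f (-1) b t M (by rw [hb]; linarith) (by rw [hb]; linarith) hdiff hgrow
      hleft hright s.re (by linarith) h1.le
    have hst : ((s.re : ℝ) : ℂ) + t * I = s := Complex.re_add_im s
    rw [Finset.univ_unique, Finset.sum_singleton, hst] at hmain
    have h3 : ‖f () s‖ ≤ Real.sqrt K * (C + l * (|t| + 3) / c) := by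
      have h4 : (Real.sqrt K * (C + l * (|t| + 3) / c)) ^ 2 = K * M := by
        rw [mul_pow, Real.sq_sqrt hK0]
      exact (sq_le_sq₀ (norm_nonneg _) (by positivity)).mp (by rw [h4]; exact hmain)
    rw [hnf] at h3
    have h4 : Real.exp (-A) ≤ Real.exp (lam * (s.re - b)) := by
      refine Real.exp_le_exp.mpr ?_
      have h5 : -(1 / l) ≤ s.re - b := by rw [hb]; linarith
      have h6 : lam * (-(1 / l)) = -A := by rw [hlam]; field_simp
      rw [← h6]
      exact mul_le_mul_of_nonneg_left h5 hlam0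
    have h5 : ‖E s‖ ≤ Real.exp A * (Real.sqrt K * (C + l * (|t| + 3) / c)) := by
      have h6 : ‖E s‖ * Real.exp (-A) ≤ Real.sqrt K * (C + l * (|t| + 3) / c) :=
        (mul_le_mul_of_nonneg_left h4 (norm_nonneg _)).trans h3
      have h7 : Real.exp A * Real.exp (-A) = 1 := by rw [← Real.exp_add]; simp
      calc ‖E s‖ = Real.exp A * (‖E s‖ * Real.exp (-A)) := by
            rw [mul_comm (‖E s‖), ← mul_assoc, h7, one_mul]
        _ ≤ _ := mul_le_mul_of_nonneg_left h6 (Real.exp_pos _).le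
    have h6 : C + l * (|t| + 3) / c ≤ (C + 1 / c) * (l * (|t| + 3)) := by
      have h7 : 1 ≤ l * (|t| + 3) := by nlinarith
      have h8 : C ≤ C * (l * (|t| + 3)) := le_mul_of_one_le_right hC0 h7
      have h9 : l * (|t| + 3) / c = 1 / c * (l * (|t| + 3)) := by ring
      rw [h9]
      linarith
    have h7 : |t| + 3 ≤ 4 * ‖s - 1‖ := by
      have h8 := Complex.abs_im_le_norm (s - 1)
      rw [sub_im, one_im, sub_zero, ← ht] at h8
      linarith
    rw [hDSE, div_le_iff₀ hs1]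
    have hsK : 0 ≤ Real.sqrt K := Real.sqrt_nonneg _
    have h8 : ‖E s‖ ≤ Real.exp A * (Real.sqrt K * ((C + 1 / c) * (l * (4 * ‖s - 1‖)))) := by
      refine h5.trans (mul_le_mul_of_nonneg_left (mul_le_mul_of_nonneg_left (h6.trans ?_) hsK)
        (Real.exp_pos _).le)
      exact mul_le_mul_of_nonneg_left (mul_le_mul_of_nonneg_left h7 hl0.le) (by linarith)
    refine h8.trans ?_
    have h9 : Real.exp A * (Real.sqrt K * ((C + 1 / c) * (l * (4 * ‖s - 1‖)))) =
        4 * (Real.exp A * (Real.sqrt K * (C + 1 / c))) * 1 * l * ‖s - 1‖ := by ring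
    rw [h9]
    refine mul_le_mul_of_nonneg_right (mul_le_mul_of_nonneg_right
      (mul_le_mul_of_nonneg_left (by linarith) (by positivity)) hl0.le) hs1.le

theorem pf_UBF (hZK : Pool.Agent.H37.CV.T_ZK) (hCFF : T_CFF) (hLBF : T_LBF) (hTLF : T_TLF) :
    T_UBF := by
  intro F _ _ _
  obtain ⟨C1, E1, hC1, h1⟩ := hLBF F 0
  obtain ⟨C2, hC2, h2⟩ := zeta_bd hZK hTLF F
  set n0 := Module.finrank ℚ F with hn0
  refine ⟨(C1 + C2) * 2 ^ n0, E1 + n0 + 1, by positivity, fun r χ s hr hR hs hs3 => ?_⟩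
  have hr1 : (1 : ℝ) ≤ r := by exact_mod_cast hr
  have ht0 : 0 ≤ |s.im| := abs_nonneg _
  set l := Real.log (r * (|s.im| + 3)) with hl
  have hl1 : 1 ≤ l := by
    rw [hl, Real.le_log_iff_exp_le (by positivity)]
    have := Real.exp_one_lt_d9
    nlinarith
  have hω : ((r.primeFactors.card : ℝ) + 1) ^ n0 ≤ 2 ^ n0 * l ^ n0 := by
    rw [← mul_pow]
    exact pow_le_pow_left₀ (by positivity) (card_primeFactors_le r hr _ (by linarith)) n0
  refine ⟨fun hχ => ?_, fun hχ => ?_⟩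
  · haveI : NeZero r := ⟨by omega⟩
    set m := χ.conductor with hm
    have hmr : m ∣ r := χ.conductor_dvd_level
    have hm0 : m ≠ 0 := fun h0 => by
      rw [h0, zero_dvd_iff] at hmr
      omega
    have hm1 : m ≠ 1 := fun h0 => hχ (DirichletCharacter.eq_one_iff_conductor_eq_one.mpr h0)
    have hRm : Rok F m := by
      refine ⟨hR.1.squarefree_of_dvd hmr, fun p hp => hR.2 p ?_⟩
      exact Nat.primeFactors_mono hmr (by omega) hp
    have h3 := h1 m χ.primitiveCharacter s (by omega) hRm χ.primitiveCharacter_isPrimitive hs hs3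
    have h4 := cmp hCFF F r m χ χ.primitiveCharacter hr (by omega) (fun n hn => by
      unfold cv
      have h5 := DirichletCharacter.primitiveCharacter_apply_of_isCoprime χ (a := (n : ℤ))
        (Nat.isCoprime_iff_coprime.mpr hn)
      rw [Int.cast_natCast, Int.cast_natCast] at h5
      exact h5) s hs
    have hm1' : (1 : ℝ) ≤ m := by exact_mod_cast Nat.one_le_iff_ne_zero.mpr hm0
    have hmr' : (m : ℝ) ≤ r := by exact_mod_cast Nat.le_of_dvd hr hmr
    have h6 : Real.log (m * (|s.im| + 3)) ≤ l :=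
      Real.log_le_log (by positivity) (mul_le_mul_of_nonneg_right hmr' (by linarith))
    have h7 : 0 ≤ Real.log (m * (|s.im| + 3)) := Real.log_nonneg (by nlinarith)
    have h8 : ‖DS (ac F χ.primitiveCharacter) 0 s‖ ≤ C1 * l ^ E1 :=
      h3.trans (mul_le_mul_of_nonneg_left (pow_le_pow_left₀ h7 h6 E1) hC1.le)
    calc ‖DS (ac F χ) 0 s‖ ≤ ‖DS (ac F χ.primitiveCharacter) 0 s‖ *
          ((r.primeFactors.card : ℝ) + 1) ^ n0 := h4
      _ ≤ (C1 * l ^ E1) * (2 ^ n0 * l ^ n0) :=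
          mul_le_mul h8 hω (by positivity) (by positivity)
      _ = C1 * 2 ^ n0 * l ^ (E1 + n0) := by rw [pow_add]; ring
      _ ≤ (C1 + C2) * 2 ^ n0 * l ^ (E1 + n0 + 1) := by
          refine mul_le_mul (mul_le_mul_of_nonneg_right (by linarith) (by positivity))
            (pow_le_pow_right₀ hl1 (by omega)) (by positivity) (by positivity)
  · subst hχ
    have h4 := cmp hCFF F r 1 (1 : DirichletCharacter ℂ r) (1 : DirichletCharacter ℂ 1) hr le_rfl
      (fun n hn => by
        unfold cv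
        rw [MulChar.one_apply (isUnit_of_subsingleton _),
          MulChar.one_apply ((ZMod.isUnit_iff_coprime n r).mpr hn)]) s hs
    have e1 : ac F (1 : DirichletCharacter ℂ 1) = fun n => (aF F n : ℂ) := by
      funext n
      unfold ac cv
      rw [MulChar.one_apply (isUnit_of_subsingleton _), mul_one]
    rw [e1] at h4
    have h5 := h2 s hs hs3
    have h6 : Real.log (|s.im| + 3) ≤ l :=
      Real.log_le_log (by positivity) (by nlinarith)
    have h7 : 0 ≤ C2 * (1 + 1 / ‖s - 1‖) := by positivity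
    have h8 : ‖DS (fun n => (aF F n : ℂ)) 0 s‖ ≤ C2 * (1 + 1 / ‖s - 1‖) * l :=
      h5.trans (mul_le_mul_of_nonneg_left h6 h7)
    calc ‖DS (ac F (1 : DirichletCharacter ℂ r)) 0 s‖ ≤ ‖DS (fun n => (aF F n : ℂ)) 0 s‖ *
          ((r.primeFactors.card : ℝ) + 1) ^ n0 := h4
      _ ≤ (C2 * (1 + 1 / ‖s - 1‖) * l) * (2 ^ n0 * l ^ n0) :=
          mul_le_mul h8 hω (by positivity) (by positivity)
      _ = C2 * 2 ^ n0 * (1 + 1 / ‖s - 1‖) * l ^ (n0 + 1) := by rw [pow_succ]; ring
      _ ≤ (C1 + C2) * 2 ^ n0 * (1 + 1 / ‖s - 1‖) * l ^ (E1 + n0 + 1) := by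
          refine mul_le_mul (mul_le_mul_of_nonneg_right (mul_le_mul_of_nonneg_right
            (by linarith) (by positivity)) (by positivity))
            (pow_le_pow_right₀ hl1 (by omega)) (by positivity) (by positivity)

end Pool.Agent.H51.SM
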