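import Pool.Agent.H84.SM.Targets2

/-!
# MP_70ba79_ag: common zeros of two coprime forms in three variables
-/

set_option autoImplicit false

namespace Pool.Agent.H51.SM

open MvPolynomial

section Elim

variable {k : Type} [Field k]

/-- elimination in the ring of polynomials in one variable over a factorial ring -/
lemma elim_poly {R : Type} [CommRing R] [IsDomain R] [UniqueFactorizationMonoid R]
    (g p : Polynomial R) (hg : Irreducible g) (hp : ¬ g ∣ p) :
    ∃ (r : R) (U V : Polynomial R), r ≠ 0 ∧ U * g + V * p = Polynomial.C r := by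
  by_cases h0 : g.natDegree = 0
  · refine ⟨g.coeff 0, 1, 0, ?_, ?_⟩
    · intro h
      apply hg.ne_zero
      rw [Polynomial.eq_C_of_natDegree_eq_zero h0, h, Polynomial.C_0]
    · rw [one_mul, zero_mul, add_zero]
      exact Polynomial.eq_C_of_natDegree_eq_zero h0
  · have hprim : g.IsPrimitive := hg.isPrimitive h0
    have hirr : Irreducible (g.map (algebraMap R (FractionRing R))) :=
      hprim.irreducible_iff_irreducible_map_fraction_map.1 hg
    have hnd : ¬ g.map (algebraMap R (FractionRing R)) ∣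
        p.map (algebraMap R (FractionRing R)) := fun h =>
      hp (hprim.dvd_of_fraction_map_dvd_fraction_map h)
    obtain ⟨u, v, huv⟩ := (hirr.coprime_iff_not_dvd.2 hnd)
    obtain ⟨b, hbm, hb⟩ := IsLocalization.integerNormalization_spec (nonZeroDivisors R) u
    obtain ⟨b', hbm', hb'⟩ := IsLocalization.integerNormalization_spec (nonZeroDivisors R) v
    obtain ⟨U, hU⟩ : ∃ U : Polynomial R, U = IsLocalization.integerNormalization
      (nonZeroDivisors R) u := ⟨_, rfl⟩
    obtain ⟨V, hV⟩ : ∃ V : Polynomial R, V = IsLocalization.integerNormalization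
      (nonZeroDivisors R) v := ⟨_, rfl⟩
    rw [← hU] at hb
    rw [← hV] at hb'
    refine ⟨b * b', Polynomial.C b' * U, Polynomial.C b * V,
      mul_ne_zero (nonZeroDivisors.ne_zero hbm) (nonZeroDivisors.ne_zero hbm'), ?_⟩
    apply Polynomial.map_injective _ (IsFractionRing.injective R (FractionRing R))
    rw [Polynomial.map_add, Polynomial.map_mul, Polynomial.map_mul, Polynomial.map_mul,
      Polynomial.map_mul, hb, hb', Polynomial.map_C, Polynomial.map_C, Polynomial.map_C]
    have e : ∀ (t : R) (w : Polynomial (FractionRing R)),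
        t • w = Polynomial.C (algebraMap R (FractionRing R) t) * w := by
      intro t w
      rw [← Polynomial.smul_eq_C_mul, algebraMap_smul]
    rw [e, e, map_mul, Polynomial.C_mul]
    linear_combination (Polynomial.C (algebraMap R (FractionRing R) b) *
      Polynomial.C (algebraMap R (FractionRing R) b')) * huv

lemma symm_C (r : MvPolynomial (Fin 2) k) :
    (finSuccEquiv k 2).symm (Polynomial.C r) = rename Fin.succ r := by
  rw [AlgEquiv.symm_apply_eq]
  induction r using MvPolynomial.induction_on with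
  | C a =>
    rw [rename_C]
    exact ((finSuccEquiv k 2).commutes a).symm
  | add p q hp hq => rw [Polynomial.C_add, hp, hq, map_add, map_add]
  | mul_X p i hp => rw [Polynomial.C_mul, hp, map_mul, map_mul, rename_X, finSuccEquiv_X_succ]

/-- a relation between the last two coordinates -/
lemma elim0 (G P : MvPolynomial (Fin 3) k) (hG : Irreducible G) (hP : ¬ G ∣ P) :
    ∃ r : MvPolynomial (Fin 2) k, r ≠ 0 ∧ ∀ (L : Type) [Field L] [Algebra k L] (c : Fin 3 → L),
      aeval c G = 0 → aeval c P = 0 → aeval (fun i => c (Fin.succ i)) r = 0 := by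
  obtain ⟨r, U, V, hr, h⟩ := elim_poly (finSuccEquiv k 2 G) (finSuccEquiv k 2 P)
    ((MulEquiv.irreducible_iff (finSuccEquiv k 2)).2 hG) (fun h => hP ((map_dvd_iff _).1 h))
  refine ⟨r, hr, ?_⟩
  intro L _ _ c hc hc'
  have h1 := congrArg (fun z => aeval c ((finSuccEquiv k 2).symm z)) h
  simp only [map_add, map_mul, AlgEquiv.symm_apply_apply, hc, hc', mul_zero, add_zero] at h1
  rw [symm_C, aeval_rename] at h1
  exact h1.symm

lemma aeval_smul_hom {L : Type} [Field L] [Algebra k L] {d : ℕ} {G : MvPolynomial (Fin 3) k}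
    (hG : G.IsHomogeneous d) (z : L) (c : Fin 3 → L) :
    aeval (fun i => z * c i) G = z ^ d * aeval c G := by
  rw [aeval_def, aeval_def, eval₂_eq', eval₂_eq', Finset.mul_sum]
  refine Finset.sum_congr rfl fun m hm => ?_
  have h1 : ∑ i, m i = d := by
    have h2 := hG (mem_support_iff.1 hm)
    rw [Finsupp.weight_apply, Finsupp.sum_fintype _ _ (fun _ => by simp)] at h2
    simpa using h2
  simp only [mul_pow, Finset.prod_mul_distrib]
  rw [Finset.prod_pow_eq_pow_sum, h1]
  ring

variable [Infinite k]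

/-- the quotient of the last two coordinates is a zero of a fixed polynomial -/
lemma ratio0 {d e : ℕ} (G P : MvPolynomial (Fin 3) k) (hGd : G.IsHomogeneous d)
    (hPe : P.IsHomogeneous e) (hG : Irreducible G) (hP : ¬ G ∣ P) :
    ∃ f : Polynomial k, f ≠ 0 ∧ ∀ (L : Type) [Field L] [Algebra k L] (c : Fin 3 → L),
      aeval c G = 0 → aeval c P = 0 → c 2 ≠ 0 → Polynomial.aeval (c 1 / c 2) f = 0 := by
  obtain ⟨r, hr, h⟩ := elim0 G P hG hP
  obtain ⟨a, ha⟩ : ∃ a : Fin 2 → k, eval a (r * X 1) ≠ 0 := by
    by_contra hcon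
    push Not at hcon
    have h1 : r * X 1 = 0 := MvPolynomial.funext fun a => by rw [hcon a, map_zero]
    exact mul_ne_zero hr (X_ne_zero 1) h1
  rw [map_mul, eval_X] at ha
  have ha1 : a 1 ≠ 0 := right_ne_zero_of_mul ha
  obtain ⟨f, hf⟩ : ∃ f : Polynomial k, f = aeval ![Polynomial.C (a 1) * Polynomial.X,
    Polynomial.C (a 1)] r := ⟨_, rfl⟩
  have hfe : ∀ (L : Type) [Field L] [Algebra k L] (t : L), Polynomial.aeval t f =
      aeval ![algebraMap k L (a 1) * t, algebraMap k L (a 1)] r := by
    intro L _ _ t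
    rw [hf, ← AlgHom.comp_apply]
    congr 1
    apply MvPolynomial.algHom_ext
    intro i
    rw [AlgHom.comp_apply, aeval_X, aeval_X]
    fin_cases i
    · simp
    · simp
  refine ⟨f, ?_, ?_⟩
  · intro h0
    have h1 := hfe k (a 0 / a 1)
    rw [h0, map_zero] at h1
    apply left_ne_zero_of_mul ha
    rw [h1]
    have h2 : (![algebraMap k k (a 1) * (a 0 / a 1), algebraMap k k (a 1)] : Fin 2 → k) = a := by
      funext i
      fin_cases i
      · show a 1 * (a 0 / a 1) = a 0
        exact mul_div_cancel₀ _ ha1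
      · rfl
    rw [h2]
    exact (aeval_eq_eval a ▸ rfl)
  · intro L _ _ c hc hc' hc2
    rw [hfe]
    have h1 := h L (fun i => algebraMap k L (a 1) / c 2 * c i)
      (by rw [aeval_smul_hom hGd, hc, mul_zero]) (by rw [aeval_smul_hom hPe, hc', mul_zero])
    have h2 : (![algebraMap k L (a 1) * (c 1 / c 2), algebraMap k L (a 1)] : Fin 2 → L) =
        fun i => algebraMap k L (a 1) / c 2 * c (Fin.succ i) := by
      funext i
      fin_cases i
      · show algebraMap k L (a 1) * (c 1 / c 2) = algebraMap k L (a 1) / c 2 * c 1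
        ring
      · show algebraMap k L (a 1) = algebraMap k L (a 1) / c 2 * c 2
        rw [div_mul_cancel₀ _ hc2]
    rw [h2]
    exact h1

lemma exists_perm : ∀ i j : Fin 3, i ≠ j → ∃ σ : Equiv.Perm (Fin 3), σ 1 = i ∧ σ 2 = j := by
  decide

/-- the quotient of two coordinates is a zero of a fixed polynomial -/
lemma ratio {d e : ℕ} (G P : MvPolynomial (Fin 3) k) (hGd : G.IsHomogeneous d)
    (hPe : P.IsHomogeneous e) (hG : Irreducible G) (hP : ¬ G ∣ P) (i j : Fin 3) :
    ∃ f : Polynomial k, f ≠ 0 ∧ ∀ (L : Type) [Field L] [Algebra k L] (c : Fin 3 → L),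
      aeval c G = 0 → aeval c P = 0 → c j ≠ 0 → Polynomial.aeval (c i / c j) f = 0 := by
  by_cases hij : i = j
  · refine ⟨Polynomial.X - Polynomial.C 1, Polynomial.X_sub_C_ne_zero 1, ?_⟩
    intro L _ _ c _ _ hc
    rw [hij, div_self hc]
    simp
  obtain ⟨σ, h1, h2⟩ := exists_perm i j hij
  have e : ∀ (L : Type) [Field L] [Algebra k L] (c : Fin 3 → L) (Q : MvPolynomial (Fin 3) k),
      aeval (fun l => c (σ l)) (rename σ.symm Q) = aeval c Q := by
    intro L _ _ c Q
    rw [aeval_rename]
    congr 2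
    funext l
    exact congrArg c (σ.apply_symm_apply l)
  obtain ⟨f, hf, h⟩ := ratio0 (rename σ.symm G) (rename σ.symm P)
    (hGd.rename_isHomogeneous) (hPe.rename_isHomogeneous)
    ((MulEquiv.irreducible_iff (renameEquiv k σ.symm)).2 hG)
    (fun h => hP ((map_dvd_iff (renameEquiv k σ.symm)).1 h))
  refine ⟨f, hf, ?_⟩
  intro L _ _ c hc hc' hcj
  have h3 := h L (fun l => c (σ l)) (by rw [e]; exact hc) (by rw [e]; exact hc')
    (by rw [h2]; exact hcj)
  rw [h1, h2] at h3
  exact h3

end Elim

end Pool.Agent.H51.SM
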